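import Pool.Agent.helper65.GD.SpecF

/-!
# gf:XG1: the coefficients of a starlike function
-/

set_option autoImplicit false

namespace Pool.Agent.GD

open Finset Metric Filter Topology

theorem XG1_at0 (f : ℂ → ℂ) (a : ℕ → ℂ) (h : Ser a f) : a 0 = f 0 := by
  have h7 := h 0 (mem_ball_self one_pos)
  have h8 : HasSum (fun n => a n * (0 : ℂ) ^ n) (a 0 * (0 : ℂ) ^ 0) := by
    apply hasSum_single
    intro n hn
    rw [zero_pow hn, mul_zero]
  have h9 := h7.unique h8
  rw [pow_zero, mul_one] at h9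
  exact h9.symm

theorem XG1 : XG1_stmt := by
  intro g hg
  have hS : Spiral g 0 := by
    refine ⟨hg.analytic, hg.map_zero, hg.deriv_ne, ?_, fun z hz hz0 => ?_⟩
    · rw [abs_zero]
      exact div_pos Real.pi_pos two_pos
    · have h := hg.starlike z hz hz0
      simpa using h
  obtain ⟨q, hq, hq0, hqre, hode⟩ := SPQ g 0 hS
  have hqre' : ∀ z ∈ ball (0 : ℂ) 1, 0 < (q z).re := by
    intro z hz
    have h := hqre z hz
    simpa using h
  have hq1 := CO1 q hq
  generalize N2b689f5b.coeff q = b at hq1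
  have hb0 : b 0 = 1 := by rw [XG1_at0 q b hq1, hq0]
  obtain ⟨β, hβ⟩ : ∃ β : ℕ → ℂ, ∀ n, β n = if n = 0 then 1 else b n / 2 := ⟨_, fun n => rfl⟩
  have hdbl : dbl β = b := by
    funext n
    unfold dbl
    by_cases hn : n = 0
    · rw [if_pos hn, hn, hb0]
    · rw [if_neg hn, hβ n, if_neg hn]
      ring
  have hAp : Approx β := by
    refine APX q β ?_ ?_ fun z hz => (hqre' z hz).le
    · rw [hβ 0, if_pos rfl]
    · rw [hdbl]
      exact hq1
  have hg1 := CO1 g hg.analytic
  have hG1 : N2b689f5b.coeff g 1 = deriv g 0 := by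
    unfold N2b689f5b.coeff
    simp
  generalize N2b689f5b.coeff g = G at hg1 hG1 ⊢
  have h4 := (CO4 g G hg1).2
  have h3 := CO3 q g b G hq1 hg1
  have h5 : Ser (fun n => ∑ m ∈ range (n + 1), b m * G (n - m)) (fun z => z * deriv g z) := by
    intro z hz
    show HasSum (fun n => (∑ m ∈ range (n + 1), b m * G (n - m)) * z ^ n) (z * deriv g z)
    rw [hode z hz]
    exact h3 z hz
  have h6 := CO2 _ _ _ h4 h5
  have hG0 : G 0 = 0 := by rw [XG1_at0 g G hg1, hg.map_zero]
  have hrec : Rec 2 β (fun m => G (m + 1) / deriv g 0) := by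
    refine ⟨?_, ?_⟩
    · show G (0 + 1) / deriv g 0 = 1
      rw [zero_add, hG1, div_self hg.deriv_ne]
    · intro k
      have h7 : ((k + 1 : ℕ) : ℂ) * G (k + 1) = ∑ m ∈ range (k + 1 + 1), b m * G (k + 1 - m) := congrFun h6 (k + 1)
      rw [Finset.sum_range_succ', Finset.sum_range_succ, hb0] at h7
      have h8 : k + 1 - (k + 1) = 0 := by omega
      rw [h8, hG0, mul_zero, add_zero, Nat.sub_zero, one_mul] at h7
      have h9 : (k : ℂ) * G (k + 1) = ∑ m ∈ range k, b (m + 1) * G (k + 1 - (m + 1)) := by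
        rw [Nat.cast_add_one] at h7
        linear_combination h7
      have h10 : ∑ m ∈ range k, b (m + 1) * G (k + 1 - (m + 1)) = 2 * ∑ j ∈ range k, β (k - j) * G (j + 1) := by
        rw [← Finset.sum_range_reflect, Finset.mul_sum]
        refine Finset.sum_congr rfl fun j hj => ?_
        have hjk := Finset.mem_range.1 hj
        have e1 : k - 1 - j + 1 = k - j := by omega
        have e2 : k + 1 - (k - j) = j + 1 := by omega
        rw [e1, e2, hβ (k - j), if_neg (by omega)]
        ring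
      rw [h10] at h9
      show (k : ℂ) * (G (k + 1) / deriv g 0) = 2 * ∑ m ∈ range k, β (k - m) * (G (m + 1) / deriv g 0)
      rw [← mul_div_assoc, h9, mul_div_assoc, Finset.sum_div]
      congr 1
      refine Finset.sum_congr rfl fun j _ => ?_
      rw [mul_div_assoc]
  have hex := ex_uni 2 β _ hrec
  refine ⟨β, hAp, fun n => ?_⟩
  by_cases hn : n = 0
  · rw [if_pos hn, hn, hG0]
  · rw [if_neg hn, ← hex]
    show G n = deriv g 0 * (G (n - 1 + 1) / deriv g 0)
    have e1 : n - 1 + 1 = n := by omega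
    rw [e1, mul_div_cancel₀ _ hg.deriv_ne]

end Pool.Agent.GD
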