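import Pool.Agent.helper65.GD.SpecF

/-!
# gf:XM3: the coefficients of `F` beyond `p + 1`
-/

set_option autoImplicit false

namespace Pool.Agent.GD

open Finset Metric Filter Topology

theorem XM3_dl (F : ℕ → ℂ) (n : ℕ) : cv dl F n = F n := by
  unfold cv
  rw [Finset.sum_eq_single n]
  · simp [dl]
  · intro r hr hne
    have := Finset.mem_range.1 hr
    have h1 : n - r ≠ 0 := by omega
    simp [dl, h1]
  · intro h
    exact absurd (Finset.mem_range.2 (Nat.lt_succ_self n)) h

theorem XM3_inv (κ Q F : ℕ → ℂ) (h : ∀ n, cv κ Q n = dl n) (n : ℕ) : F n = cv κ (cv Q F) n := by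
  rw [← cv_assoc, show cv κ Q = dl from funext h, XM3_dl]

theorem XM3 (hXPS : XPS_stmt) (hXFB : XFB_stmt) : XM3_stmt := by
  intro p Q κ g ω D Φ hG hκ hω hD j c hj hjp hQ n hn
  obtain ⟨-, -, hF, hlast⟩ := hXPS p g Φ hG hD.g0
  have hF1 := hF c
  have hl1 := hlast c
  generalize hh : (fun r => ∑ m ∈ range (p + 1), c (m + 1) * one0 Φ m r) = h at hF1
  have hhr : ∀ r, ∑ m ∈ range (p + 1), c (m + 1) * one0 Φ m r = h r := fun r => by rw [← hh]
  simp only [hhr] at hl1
  generalize cmb (p + 1) (psg g Φ) c = F at hF1 hQ ⊢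
  have hF0 : F 0 = 0 := by
    rw [hF1 0]
    simp [gs]
  have hS : ∀ r, r ≤ p + 1 → cv Q F r = if r = j then (j : ℂ) else 0 := by
    intro r hr
    rcases Nat.eq_zero_or_pos r with h0 | h0
    · subst h0
      rw [if_neg (by omega)]
      unfold cv
      simp [hF0]
    · exact hQ r h0 hr
  have hFr : ∀ r, r ≤ p + 1 → F r = if j ≤ r then (j : ℂ) * κ (r - j) else 0 := by
    intro r hr
    rw [XM3_inv κ Q F hκ r]
    have h1 : cv κ (cv Q F) r = ∑ i ∈ range (r + 1), κ (r - i) * (if i = j then (j : ℂ) else 0) := by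
      show ∑ i ∈ range (r + 1), κ (r - i) * cv Q F i = _
      refine Finset.sum_congr rfl fun i hi => ?_
      rw [hS i (by have := Finset.mem_range.1 hi; omega)]
    rw [h1]
    simp only [mul_ite, mul_zero]
    rw [Finset.sum_ite_eq']
    by_cases h2 : j ≤ r
    · rw [if_pos h2, if_pos (Finset.mem_range.2 (by omega)), mul_comm]
    · rw [if_neg h2, if_neg (fun h3 => h2 (by have := Finset.mem_range.1 h3; omega))]
  have hcv : ∀ k, cv g h k = F (k + 1) := by
    intro k
    rw [hF1 (k + 1)]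
    unfold gs cv
    rw [Nat.add_sub_cancel]
  have hhk : ∀ k, k ≤ p → h k = if k + 1 < j then 0 else (j : ℂ) * cv ω κ (k + 1 - j) := by
    intro k hk
    rw [XM3_inv ω g h hω k]
    have h1 : cv ω (cv g h) k = ∑ i ∈ range (k + 1), ω (k - i) * (if j ≤ i + 1 then (j : ℂ) * κ (i + 1 - j) else 0) := by
      show ∑ i ∈ range (k + 1), ω (k - i) * cv g h i = _
      refine Finset.sum_congr rfl fun i hi => ?_
      rw [hcv i, hFr (i + 1) (by have := Finset.mem_range.1 hi; omega)]
    rw [h1]
    by_cases h2 : k + 1 < j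
    · rw [if_pos h2]
      apply Finset.sum_eq_zero
      intro i hi
      rw [if_neg (by have := Finset.mem_range.1 hi; omega), mul_zero]
    · rw [if_neg h2]
      obtain ⟨j', rfl⟩ : ∃ j', j = j' + 1 := ⟨j - 1, by omega⟩
      obtain ⟨s, rfl⟩ : ∃ s, k = j' + s := ⟨k - j', by omega⟩
      rw [show j' + s + 1 = j' + (s + 1) by ring, Finset.sum_range_add]
      have h3 : ∑ i ∈ range j', ω (j' + s - i) * (if j' + 1 ≤ i + 1 then ((j' + 1 : ℕ) : ℂ) * κ (i + 1 - (j' + 1)) else 0) = 0 := by
        apply Finset.sum_eq_zero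
        intro i hi
        rw [if_neg (by have := Finset.mem_range.1 hi; omega), mul_zero]
      rw [h3, zero_add, show j' + (s + 1) - (j' + 1) = s by omega]
      unfold cv
      rw [Finset.mul_sum]
      refine Finset.sum_congr rfl fun i hi => ?_
      have := Finset.mem_range.1 hi
      rw [if_pos (by omega), show j' + s - (j' + i) = s - i by omega, show j' + i + 1 - (j' + 1) = i by omega]
      ring
  rw [hF1 n]
  exact hXFB p n j g (cv ω κ) h D hD hj hjp hn hhk hl1

end Pool.Agent.GD
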