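import Pool.Agent.helper65.GD.SpecF

/-!
# gf:XOD: the coefficients of the solution of `z E' = s B E`
-/

set_option autoImplicit false

namespace Pool.Agent.GD

open Finset Metric Filter Topology

theorem XOD : XOD_stmt := by
  intro s β E B hE hE0 hB hode
  have h1 := CO1 E hE
  generalize N2b689f5b.coeff E = a at h1
  have h4 := (CO4 E a h1).2
  have h3 := CO3 B E _ a hB h1
  have h5 : Ser (fun n => s * ∑ m ∈ range (n + 1), (if m = 0 then 0 else β m) * a (n - m)) (fun z => z * deriv E z) := by
    intro z hz
    have h := (h3 z hz).mul_left s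
    have e : (fun n => (s * ∑ m ∈ range (n + 1), (if m = 0 then 0 else β m) * a (n - m)) * z ^ n) = fun n =>
        s * ((∑ m ∈ range (n + 1), (if m = 0 then 0 else β m) * a (n - m)) * z ^ n) := by
      funext n
      ring
    show HasSum (fun n => (s * ∑ m ∈ range (n + 1), (if m = 0 then 0 else β m) * a (n - m)) * z ^ n) (z * deriv E z)
    rw [hode z hz, e]
    exact h
  have h6 := CO2 _ _ _ h4 h5
  have hrec : Rec s β a := by
    refine ⟨?_, ?_⟩
    · have h7 := h1 0 (mem_ball_self one_pos)
      have h8 : HasSum (fun n => a n * (0 : ℂ) ^ n) (a 0 * (0 : ℂ) ^ 0) := by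
        apply hasSum_single
        intro n hn
        rw [zero_pow hn, mul_zero]
      have h9 := h7.unique h8
      rw [hE0, pow_zero, mul_one] at h9
      exact h9.symm
    · intro k
      have h7 : (k : ℂ) * a k = s * ∑ m ∈ range (k + 1), (if m = 0 then 0 else β m) * a (k - m) := congrFun h6 k
      rw [h7]
      congr 1
      rw [← Finset.sum_range_reflect (fun m => (if m = 0 then 0 else β m) * a (k - m)) (k + 1), Finset.sum_range_succ]
      have h8 : k + 1 - 1 - k = 0 := by omega
      rw [h8]
      simp only [if_true, zero_mul, add_zero]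
      refine Finset.sum_congr rfl fun m hm => ?_
      have hmk := Finset.mem_range.1 hm
      have h9 : k + 1 - 1 - m = k - m := by omega
      have h10 : k - (k - m) = m := by omega
      have h11 : k - m ≠ 0 := by omega
      rw [h9, h10, if_neg h11]
  rw [← ex_uni s β a hrec]
  exact h1

end Pool.Agent.GD
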