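import Pool.Agent.helper65.GD.SpecF

/-!
# gf:XT2: a rotation of `T` has positive real part
-/

set_option autoImplicit false

namespace Pool.Agent.GD

open Finset Metric Filter Topology

theorem XT2_im (r : ℝ) (z : ℂ) : ((r : ℂ) * z).im = r * z.im := by simp

theorem XT2 (hXT1 : XT1_stmt) : XT2_stmt := by
  intro N w x y hA hy
  obtain ⟨hw, hw1, hx⟩ := hA
  choose θ hθ using fun l => hXT1 (x l) y (hx l) hy
  refine ⟨∑ l, w l * θ l, fun z hz => ?_⟩
  unfold TF
  rw [← Complex.exp_add, Complex.exp_re]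
  refine mul_pos (Real.exp_pos _) (Real.cos_pos_of_mem_Ioo ?_)
  have him : (-(((∑ l, w l * θ l : ℝ) : ℂ) * Complex.I) +
      ∑ l, (w l : ℂ) * (Complex.log (1 - x l * z) - Complex.log (1 - y * z))).im =
      ∑ l, w l * ((Complex.log (1 - x l * z) - Complex.log (1 - y * z)).im - θ l) := by
    rw [Complex.add_im, Complex.neg_im, XT2_im, Complex.im_sum, Complex.I_im, mul_one]
    simp only [XT2_im]
    simp only [mul_sub, Finset.sum_sub_distrib]
    ring
  rw [him, Set.mem_Ioo, ← abs_lt]
  have hex : ∃ l, 0 < w l := by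
    by_contra hcon
    push Not at hcon
    have h1 : ∑ l, w l ≤ 0 := Finset.sum_nonpos fun l _ => hcon l
    linarith
  obtain ⟨l0, hl0⟩ := hex
  calc |∑ l, w l * ((Complex.log (1 - x l * z) - Complex.log (1 - y * z)).im - θ l)|
      ≤ ∑ l, |w l * ((Complex.log (1 - x l * z) - Complex.log (1 - y * z)).im - θ l)| := Finset.abs_sum_le_sum_abs _ _
    _ < ∑ l, w l * (Real.pi / 2) := by
        apply Finset.sum_lt_sum
        · intro l _
          rw [abs_mul, abs_of_nonneg (hw l)]
          exact mul_le_mul_of_nonneg_left (hθ l z hz).le (hw l)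
        · refine ⟨l0, Finset.mem_univ _, ?_⟩
          rw [abs_mul, abs_of_nonneg (hw l0)]
          exact mul_lt_mul_of_pos_left (hθ l0 z hz) hl0
    _ = Real.pi / 2 := by rw [← Finset.sum_mul, hw1, one_mul]

end Pool.Agent.GD
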