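import Pool.Agent.helper65.GD.SpecF

/-!
# gf:XT3: the power series of `T`
-/

set_option autoImplicit false

namespace Pool.Agent.GD

open Finset Metric Filter Topology

theorem XT3_lt (x z : ℂ) (hx : ‖x‖ = 1) (hz : z ∈ ball (0 : ℂ) 1) : ‖x * z‖ < 1 := by
  rw [norm_mul, hx, one_mul]
  simpa using hz

theorem XT3_slit (x z : ℂ) (hx : ‖x‖ = 1) (hz : z ∈ ball (0 : ℂ) 1) : 1 - x * z ∈ Complex.slitPlane := by
  left
  have h1 := XT3_lt x z hx hz
  have h2 := (Complex.abs_re_le_norm (x * z)).trans_lt h1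
  have h3 := (abs_lt.1 h2).2
  rw [Complex.sub_re, Complex.one_re]
  linarith

theorem XT3_ne (x z : ℂ) (hx : ‖x‖ = 1) (hz : z ∈ ball (0 : ℂ) 1) : 1 - x * z ≠ 0 :=
  Complex.slitPlane_ne_zero (XT3_slit x z hx hz)

theorem XT3_geo (x z : ℂ) (hx : ‖x‖ = 1) (hz : z ∈ ball (0 : ℂ) 1) : HasSum (fun n : ℕ => x ^ n * z ^ n) ((1 - x * z)⁻¹) := by
  have h := hasSum_geometric_of_norm_lt_one (XT3_lt x z hx hz)
  simpa only [mul_pow] using h

theorem XT3_hd {N : ℕ} (w : Fin N → ℝ) (x : Fin N → ℂ) (hx : ∀ l, ‖x l‖ = 1) (z : ℂ) (hz : z ∈ ball (0 : ℂ) 1) :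
    HasDerivAt (fun z => Complex.exp (∑ l, (w l : ℂ) * Complex.log (1 - x l * z)))
      (Complex.exp (∑ l, (w l : ℂ) * Complex.log (1 - x l * z)) * ∑ l, (w l : ℂ) * (-(x l) / (1 - x l * z))) z := by
  apply HasDerivAt.cexp
  apply HasDerivAt.fun_sum
  intro l _
  apply HasDerivAt.const_mul
  have h1 : HasDerivAt (fun z => 1 - x l * z) (-(x l)) z := by
    have h2 := ((hasDerivAt_id z).const_mul (x l)).const_sub 1
    simpa using h2
  exact h1.clog (XT3_slit (x l) z (hx l) hz)

theorem XT3 (hXOD : XOD_stmt) : XT3_stmt := by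
  intro N w x y hA hy
  obtain ⟨hw, hw1, hx⟩ := hA
  have hE : Ser (ex (-1) (mom w x)) (fun z => Complex.exp (∑ l, (w l : ℂ) * Complex.log (1 - x l * z))) := by
    refine hXOD (-1) (mom w x) _ (fun z => ∑ l, (w l : ℂ) * ((x l * z) / (1 - x l * z))) ?_ ?_ ?_ ?_
    · intro z hz
      exact (XT3_hd w x hx z hz).differentiableAt.differentiableWithinAt
    · simp
    · intro z hz
      have h1 : ∀ l, HasSum (fun n : ℕ => (if n = 0 then 0 else x l ^ n) * z ^ n) ((x l * z) / (1 - x l * z)) := by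
        intro l
        have h2 := XT3_geo (x l) z (hx l) hz
        have h3 : HasSum (fun n : ℕ => if n = 0 then (1 : ℂ) else 0) 1 := by
          have h4 := hasSum_ite_eq (0 : ℕ) (1 : ℂ)
          exact h4
        have h5 := h2.sub h3
        have h6 : (1 - x l * z)⁻¹ - 1 = (x l * z) / (1 - x l * z) := by
          have := XT3_ne (x l) z (hx l) hz
          field_simp
          ring
        rw [h6] at h5
        have h7 : (fun n : ℕ => (if n = 0 then 0 else x l ^ n) * z ^ n) =
            fun n : ℕ => x l ^ n * z ^ n - if n = 0 then (1 : ℂ) else 0 := by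
          funext n
          by_cases hn : n = 0
          · simp [hn]
          · simp [hn]
        rw [h7]
        exact h5
      have h2 := hasSum_sum (s := Finset.univ) (fun l (_ : l ∈ (Finset.univ : Finset (Fin N))) => (h1 l).mul_left (w l : ℂ))
      have h3 : (fun n : ℕ => (if n = 0 then 0 else mom w x n) * z ^ n) =
          fun n : ℕ => ∑ l, (w l : ℂ) * ((if n = 0 then 0 else x l ^ n) * z ^ n) := by
        funext n
        by_cases hn : n = 0
        · simp [hn]
        · simp only [if_neg hn]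
          unfold mom
          rw [Finset.sum_mul]
          exact Finset.sum_congr rfl fun l _ => mul_assoc _ _ _
      show HasSum (fun n : ℕ => (if n = 0 then 0 else mom w x n) * z ^ n) (∑ l, (w l : ℂ) * ((x l * z) / (1 - x l * z)))
      rw [h3]
      exact h2
    · intro z hz
      rw [(XT3_hd w x hx z hz).deriv]
      have h1 : z * ∑ l, (w l : ℂ) * (-(x l) / (1 - x l * z)) = -∑ l, (w l : ℂ) * ((x l * z) / (1 - x l * z)) := by
        rw [Finset.mul_sum, ← Finset.sum_neg_distrib]
        refine Finset.sum_congr rfl fun l _ => ?_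
        ring
      show z * (Complex.exp (∑ l, (w l : ℂ) * Complex.log (1 - x l * z)) * ∑ l, (w l : ℂ) * (-(x l) / (1 - x l * z))) =
        -1 * ((∑ l, (w l : ℂ) * ((x l * z) / (1 - x l * z))) * Complex.exp (∑ l, (w l : ℂ) * Complex.log (1 - x l * z)))
      linear_combination Complex.exp (∑ l, (w l : ℂ) * Complex.log (1 - x l * z)) * h1
  have hG : Ser (fun n => y ^ n) (fun z => (1 - y * z)⁻¹) := fun z hz => XT3_geo y z hy hz
  have h3 := CO3 _ _ _ _ hE hG
  intro z hz
  have h4 := h3 z hz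
  have h5 : TF w x y z = Complex.exp (∑ l, (w l : ℂ) * Complex.log (1 - x l * z)) * (1 - y * z)⁻¹ := by
    unfold TF
    have h6 : ∑ l, (w l : ℂ) * (Complex.log (1 - x l * z) - Complex.log (1 - y * z)) =
        (∑ l, (w l : ℂ) * Complex.log (1 - x l * z)) + -Complex.log (1 - y * z) := by
      have h7 : ∑ l, (w l : ℂ) = 1 := by
        rw [← Complex.ofReal_sum, hw1, Complex.ofReal_one]
      simp only [mul_sub, Finset.sum_sub_distrib]
      rw [← Finset.sum_mul, h7, one_mul, sub_eq_add_neg]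
    rw [h6, Complex.exp_add, Complex.exp_neg, Complex.exp_log (XT3_ne y z hy hz)]
  rw [h5]
  have h6 : (fun n => gy (ex (-1) (mom w x)) y n * z ^ n) =
      fun n => (∑ m ∈ range (n + 1), ex (-1) (mom w x) m * y ^ (n - m)) * z ^ n := by
    funext n
    congr 1
    unfold gy
    exact Finset.sum_congr rfl fun m _ => mul_comm _ _
  rw [h6]
  exact h4

end Pool.Agent.GD
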