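import Pool.Agent.helper65.GD.SpecF

/-!
# gf:XZ1: the coefficients of `(1 - z) g`
-/

set_option autoImplicit false

namespace Pool.Agent.GD

open Finset Metric Filter Topology

theorem XZ1_mom (N : ℕ) (w : Fin N → ℝ) (x : Fin N → ℂ) (h : Atomic N w x) (m : ℕ) : ‖mom w x m‖ ≤ 1 := by
  obtain ⟨hw, hw1, hx⟩ := h
  unfold mom
  refine (norm_sum_le _ _).trans ?_
  rw [← hw1]
  refine Finset.sum_le_sum fun l _ => ?_
  rw [norm_mul, norm_pow, hx l, one_pow, mul_one, Complex.norm_real, Real.norm_eq_abs, abs_of_nonneg (hw l)]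

theorem XZ1_sum (A : ℕ) : ∑ m ∈ range A, ((m : ℝ) + 1) = A * (A + 1) / 2 := by
  induction A with
  | zero => simp
  | succ A ih =>
    rw [Finset.sum_range_succ, ih]
    push_cast
    ring

theorem XZ1 (hXLB : XLB_stmt) (hXGR : XGR_stmt) : XZ1_stmt := by
  intro N w x A hA
  have hβ := XZ1_mom N w x hA
  have hL := fun m => hXLB N w x m hA
  generalize mom w x = β at hβ hL ⊢
  have hR := ex_rec 2 β
  have hgr := hXGR β hβ
  generalize ex 2 β = a at hR hgr ⊢
  have h1 := hR.2 (A + 1)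
  have h2 := hR.2 A
  rw [Finset.sum_range_succ, show A + 1 - A = 1 by omega] at h1
  have h3 : ((A : ℂ) + 1) * (a (A + 1) - 2 * β 1 * a A) =
      2 * ∑ m ∈ range A, (β (A - m + 1) - 2 * β 1 * β (A - m)) * a m := by
    have h4 : ∑ m ∈ range A, (β (A - m + 1) - 2 * β 1 * β (A - m)) * a m =
        ∑ m ∈ range A, β (A + 1 - m) * a m - 2 * β 1 * ∑ m ∈ range A, β (A - m) * a m := by
      rw [Finset.mul_sum, ← Finset.sum_sub_distrib]
      refine Finset.sum_congr rfl fun m hm => ?_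
      have := Finset.mem_range.1 hm
      rw [show A - m + 1 = A + 1 - m by omega]
      ring
    rw [h4]
    rw [Nat.cast_add_one] at h1
    linear_combination h1 - 2 * β 1 * h2
  have h5 : ‖((A : ℂ) + 1) * (a (A + 1) - 2 * β 1 * a A)‖ ≤ A * (A + 1) := by
    rw [h3, norm_mul]
    have h6 : ‖∑ m ∈ range A, (β (A - m + 1) - 2 * β 1 * β (A - m)) * a m‖ ≤ ∑ m ∈ range A, ((m : ℝ) + 1) := by
      refine (norm_sum_le _ _).trans (Finset.sum_le_sum fun m _ => ?_)
      rw [norm_mul]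
      calc ‖β (A - m + 1) - 2 * β 1 * β (A - m)‖ * ‖a m‖ ≤ 1 * ((m : ℝ) + 1) :=
            mul_le_mul (hL _) (hgr m) (norm_nonneg _) zero_le_one
        _ = _ := one_mul _
    rw [XZ1_sum] at h6
    have h7 : ‖(2 : ℂ)‖ = 2 := by norm_num
    rw [h7]
    linarith
  rw [norm_mul] at h5
  have h8 : ‖(A : ℂ) + 1‖ = (A : ℝ) + 1 := by
    have h9 : (A : ℂ) + 1 = ((A + 1 : ℕ) : ℂ) := by push_cast; ring
    rw [h9, Complex.norm_natCast]
    push_cast
    ring
  rw [h8, mul_comm (A : ℝ)] at h5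
  exact le_of_mul_le_mul_left h5 (by positivity)

end Pool.Agent.GD
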